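import Mathlib
import Pool.Agent.helper60.DB.SpecM

/-!
Row bm:MU: uniqueness of the pairs `g, u`.
-/

namespace Pool.Agent.helper60.DB

open Polynomial

theorem MU_coeff_EE {R : Type} [CommRing R] (f : PowerSeries R) (n : ℕ) :
    PowerSeries.coeff n (EE f) = 2 * (n : R) * PowerSeries.coeff n f := by
  unfold EE
  have h2 : (2 : PowerSeries R) * PowerSeries.X * PowerSeries.derivative R f
      = PowerSeries.C (2 : R) * (PowerSeries.X * PowerSeries.derivative R f) := by
    rw [map_ofNat, mul_assoc]
  rw [h2, PowerSeries.coeff_C_mul]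
  cases n with
  | zero => simp
  | succ n =>
    rw [PowerSeries.coeff_succ_X_mul, PowerSeries.coeff_derivative]
    push_cast
    ring

theorem MU_EE_sub {R : Type} [CommRing R] (f g : PowerSeries R) : EE (f - g) = EE f - EE g := by
  apply PowerSeries.ext
  intro n
  rw [map_sub, MU_coeff_EE, MU_coeff_EE, MU_coeff_EE, map_sub]
  ring

theorem MU : MU_stmt := by
  intro R _ _ _ A' B' α y g u g' u' hy h h'
  have hE : (u - u') * (u + u') = PowerSeries.X * ((g - g') * ((g + g') *
      (PowerSeries.C A' + PowerSeries.C B' * PowerSeries.X * (g ^ 2 + g' ^ 2)))) := by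
    have h1 := h.cur
    have h2 := h'.cur
    linear_combination h1 - h2
  have hD : y * ((g - g') + EE (g - g')) = PowerSeries.C α * (u - u') := by
    rw [MU_EE_sub]
    have h1 := h.ode
    have h2 := h'.ode
    linear_combination h1 - h2
  have hnd : ¬ (PowerSeries.X : PowerSeries R) ∣ (u + u') := by
    rw [PowerSeries.X_dvd_iff, map_add, h.cu, h'.cu]
    norm_num
  have hX : Prime (PowerSeries.X : PowerSeries R) := PowerSeries.X_prime
  have hz : ∀ n : ℕ, PowerSeries.coeff n (g - g') = 0 := by
    intro n
    induction n using Nat.strong_induction_on with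
    | _ n ih =>
      have hXn : (PowerSeries.X : PowerSeries R) ^ n ∣ (g - g') :=
        PowerSeries.X_pow_dvd_iff.2 ih
      have hXE : (PowerSeries.X : PowerSeries R) ^ (n + 1) ∣ (u - u') := by
        have h1 : (PowerSeries.X : PowerSeries R) ^ (n + 1) ∣ (u - u') * (u + u') := by
          rw [hE, pow_succ']
          exact mul_dvd_mul_left _ (hXn.mul_right _)
        exact hX.pow_dvd_of_dvd_mul_right (n + 1) hnd h1
      have h3 : PowerSeries.coeff n (PowerSeries.C α * (u - u')) = 0 := by
        rw [PowerSeries.coeff_C_mul, PowerSeries.X_pow_dvd_iff.1 hXE n (Nat.lt_succ_self n), mul_zero]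
      rw [← hD, PowerSeries.coeff_mul, Finset.sum_eq_single (0, n)] at h3
      · have hy0 : PowerSeries.coeff 0 y = 1 := by
          rw [PowerSeries.coeff_zero_eq_constantCoeff_apply]
          exact hy
        change PowerSeries.coeff 0 y * PowerSeries.coeff n (g - g' + EE (g - g')) = 0 at h3
        rw [hy0, one_mul, map_add, MU_coeff_EE] at h3
        have h4 : (2 * (n : R) + 1) * PowerSeries.coeff n (g - g') = 0 := by
          linear_combination h3
        rcases mul_eq_zero.1 h4 with h5 | h5
        · exfalso
          have h6 : ((2 * n + 1 : ℕ) : R) = 0 := by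
            push_cast
            exact h5
          exact absurd (Nat.cast_eq_zero.1 h6) (by omega)
        · exact h5
      · intro b hb hne
        have hb' : b.1 + b.2 = n := Finset.HasAntidiagonal.mem_antidiagonal.1 hb
        have hlt : b.2 < n := by
          rcases Nat.eq_zero_or_pos b.1 with h0 | h0
          · exact absurd (Prod.ext h0 (show b.2 = n by omega)) hne
          · omega
        rw [map_add, MU_coeff_EE, ih b.2 hlt, mul_zero, add_zero, mul_zero]
      · intro hb
        exact absurd (Finset.HasAntidiagonal.mem_antidiagonal.2 (zero_add n)) hb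
  have hg : g - g' = 0 := by
    apply PowerSeries.ext
    intro n
    rw [hz n, map_zero]
  rw [hg, zero_mul, mul_zero] at hE
  refine ⟨sub_eq_zero.1 hg, ?_⟩
  rcases mul_eq_zero.1 hE with h7 | h7
  · exact sub_eq_zero.1 h7
  · exact absurd (h7 ▸ dvd_zero _) hnd

end Pool.Agent.helper60.DB
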